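import Pool.Agent.W2helper66.XP.Stm

/-! Project XP, piece NUL. -/

set_option autoImplicit false

namespace Pool.Agent.W2helper19.XP

open Finset Pool.Agent.W2helper66.XP MvPolynomial

lemma deg_one {κ σ R : Type} [CommRing R] (u : κ → MvPolynomial σ R) (hu : ∀ k, (u k).totalDegree ≤ 1)
    (β : κ → R) (k : κ) : (u k + C (β k)).totalDegree ≤ 1 := by
  refine (totalDegree_add _ _).trans (max_le (hu k) ?_)
  rw [totalDegree_C]
  exact Nat.zero_le _

lemma deg_prod {κ σ R : Type} [CommRing R] (u : κ → MvPolynomial σ R) (hu : ∀ k, (u k).totalDegree ≤ 1)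
    (β : κ → R) (K : Finset κ) : (∏ k ∈ K, (u k + C (β k))).totalDegree ≤ K.card := by
  refine (totalDegree_finsetProd _ _).trans ?_
  refine (Finset.sum_le_card_nsmul K _ 1 (fun k _ => deg_one u hu β k)).trans ?_
  simp

lemma deg_diff {κ σ R : Type} [CommRing R] (u : κ → MvPolynomial σ R) (hu : ∀ k, (u k).totalDegree ≤ 1)
    (α β : κ → R) (K : Finset κ) :
    (∏ k ∈ K, (u k + C (α k)) - ∏ k ∈ K, (u k + C (β k))).totalDegree ≤ K.card - 1 := by
  classical
  induction K using Finset.induction_on with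
  | empty => simp
  | insert k K hk ih =>
    rw [Finset.prod_insert hk, Finset.prod_insert hk, Finset.card_insert_of_notMem hk,
      Nat.add_sub_cancel]
    have e : (u k + C (α k)) * ∏ k ∈ K, (u k + C (α k)) - (u k + C (β k)) * ∏ k ∈ K, (u k + C (β k)) =
        (u k + C (α k)) * (∏ k ∈ K, (u k + C (α k)) - ∏ k ∈ K, (u k + C (β k))) +
          C (α k - β k) * ∏ k ∈ K, (u k + C (β k)) := by
      rw [C_sub]; ring
    rw [e]
    refine (totalDegree_add _ _).trans (max_le ?_ ?_)
    · rcases Finset.eq_empty_or_nonempty K with rfl | hK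
      · simp
      · refine (totalDegree_mul _ _).trans ?_
        have h1 := deg_one u hu α k
        have h2 : 0 < K.card := Finset.card_pos.mpr hK
        omega
    · refine (totalDegree_mul _ _).trans ?_
      rw [totalDegree_C, zero_add]
      exact deg_prod u hu β K

lemma card_pairs (m : ℕ) :
    2 * ((univ : Finset (Fin m × Fin m)).filter (fun q => q.1 < q.2)).card = m * (m - 1) := by
  have h1 : ((univ : Finset (Fin m × Fin m)).filter (fun q => q.1 < q.2)).card =
      ∑ j : Fin m, (j : ℕ) := by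
    rw [Finset.card_filter, Fintype.sum_prod_type_right]
    refine Finset.sum_congr rfl (fun j _ => ?_)
    rw [← Finset.card_filter]
    have : (univ : Finset (Fin m)).filter (fun i => i < j) = Finset.Iio j := by
      ext i; simp
    rw [this, Fin.card_Iio]
  rw [h1, Fin.sum_univ_eq_sum_range (fun i => i) m, mul_comm]
  exact Finset.sum_range_id_mul_two m

/-- pairs of indices below four -/
def e16 : Fin 4 × Fin 4 ≃ Fin 16 := finProdFinEquiv

lemma cast_ne {p : ℕ} {n : ℕ} (h0 : 0 < n) (hn : n < p) : (n : ZMod p) ≠ 0 := by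
  intro h
  rw [ZMod.natCast_eq_zero_iff] at h
  exact absurd (Nat.le_of_dvd h0 h) (by omega)

theorem nul : UNIQ → LAM → NUL := by
  intro hU hL p hp m hm D
  rcases Nat.lt_or_ge m 2 with hm2 | hm2
  · refine ⟨0, fun i j hij => absurd (Fin.ext (by omega)) hij⟩
  by_contra hcon
  push Not at hcon
  classical
  obtain ⟨P, hP⟩ : ∃ P, P = (univ : Finset (Fin m × Fin m)).filter (fun q => q.1 < q.2) := ⟨_, rfl⟩
  obtain ⟨K, hK⟩ : ∃ K, K = P ×ˢ (univ : Finset (Fin 16)) := ⟨_, rfl⟩
  have hKc : K.card = m * (8 * (m - 1)) := by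
    have := card_pairs m
    rw [← hP] at this
    rw [hK, Finset.card_product, Finset.card_univ, Fintype.card_fin]
    have e : m * (8 * (m - 1)) = 8 * (m * (m - 1)) := by ring
    rw [e, ← this]
    ring
  let u : (Fin m × Fin m) × Fin 16 → MvPolynomial (Fin m) (ZMod p) := fun k => X k.1.1 - X k.1.2
  have hu : ∀ k, (u k).totalDegree ≤ 1 := by
    intro k
    refine (totalDegree_sub _ _).trans (max_le ?_ ?_)
    · exact (totalDegree_X _).le
    · exact (totalDegree_X _).le
  let α : (Fin m × Fin m) × Fin 16 → ZMod p := fun k =>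
    D k.1.1 (e16.symm k.2).1 - D k.1.2 (e16.symm k.2).2
  let β : (Fin m × Fin m) × Fin 16 → ZMod p := fun k => ((k.2 : ℕ) : ZMod p) - 7
  have hdeg := deg_diff u hu α β K
  rw [hKc] at hdeg
  have hpos : 0 < m * (8 * (m - 1)) := Nat.mul_pos (by omega) (by omega)
  have hsum := hL p m (8 * (m - 1)) (by omega) _ (lt_of_le_of_lt hdeg (by omega))
  -- f vanishes
  have hf : ∀ x : Fin m → ZMod p, MvPolynomial.eval x (∏ k ∈ K, (u k + C (α k))) = 0 := by
    intro x
    rw [map_prod]
    obtain ⟨i, j, hij, a, b, hab⟩ := hcon x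
    rcases lt_or_gt_of_ne hij with h | h
    · refine Finset.prod_eq_zero (i := ((i, j), e16 (a, b))) ?_ ?_
      · rw [hK, hP]
        simp [h]
      · show MvPolynomial.eval x (X i - X j + C (D i (e16.symm (e16 (a, b))).1 -
          D j (e16.symm (e16 (a, b))).2)) = 0
        rw [Equiv.symm_apply_apply]
        simp only [map_add, map_sub, eval_X, eval_C]
        linear_combination hab
    · refine Finset.prod_eq_zero (i := ((j, i), e16 (b, a))) ?_ ?_
      · rw [hK, hP]
        simp [h]
      · show MvPolynomial.eval x (X j - X i + C (D j (e16.symm (e16 (b, a))).1 -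
          D i (e16.symm (e16 (b, a))).2)) = 0
        rw [Equiv.symm_apply_apply]
        simp only [map_add, map_sub, eval_X, eval_C]
        linear_combination -hab
  have hG : ∀ c : Fin m → ℕ, MvPolynomial.eval (fun i => ((c i : ℕ) : ZMod p))
      (∏ k ∈ K, (u k + C (β k))) =
      ∏ k ∈ K, (((c k.1.1 : ℕ) : ZMod p) - ((c k.1.2 : ℕ) : ZMod p) + (((k.2 : ℕ) : ZMod p) - 7)) := by
    intro c
    rw [map_prod]
    refine Finset.prod_congr rfl (fun k _ => ?_)
    show MvPolynomial.eval _ (X k.1.1 - X k.1.2 + C (((k.2 : ℕ) : ZMod p) - 7)) = _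
    simp only [map_add, map_sub, eval_X, map_natCast, map_ofNat]
  obtain ⟨cs, hcs'⟩ : ∃ cs : Fin m → ℕ, ∀ i : Fin m, cs i = 8 * (m - 1 - (i : ℕ)) :=
    ⟨fun i => 8 * (m - 1 - (i : ℕ)), fun _ => rfl⟩
  rw [Finset.sum_eq_single cs] at hsum
  · rw [map_sub, hf, hG, zero_sub, neg_mul, neg_eq_zero, mul_eq_zero] at hsum
    rcases hsum with h | h
    · rw [Finset.prod_eq_zero_iff] at h
      obtain ⟨k, hk, h0⟩ := h
      rw [hK, hP] at hk
      have hlt : k.1.1 < k.1.2 := by simpa using hk
      have hlt' : (k.1.1 : ℕ) < k.1.2 := hlt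
      have hb := k.1.2.isLt
      have hk16 := k.2.isLt
      refine cast_ne (p := p) (n := cs k.1.1 + k.2 - (cs k.1.2 + 7)) ?_ ?_ ?_
      · rw [hcs', hcs']; omega
      · rw [hcs', hcs']; omega
      · rw [Nat.cast_sub (by rw [hcs', hcs']; omega)]
        push_cast
        linear_combination h0
    · unfold wt at h
      rw [Finset.prod_eq_zero_iff] at h
      obtain ⟨i, _, h⟩ := h
      rw [Finset.prod_eq_zero_iff] at h
      obtain ⟨e, he, h⟩ := h
      rw [inv_eq_zero, sub_eq_zero] at h
      rw [Finset.mem_erase, Finset.mem_range] at he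
      apply he.1
      have h1 : cs i < p := by rw [hcs']; omega
      have h2 := congrArg ZMod.val h
      rw [ZMod.val_natCast_of_lt h1, ZMod.val_natCast_of_lt (by omega)] at h2
      exact h2.symm
  · intro c hc hne
    rw [Fintype.mem_piFinset] at hc
    rw [map_sub, hf, hG, zero_sub, neg_mul, neg_eq_zero, mul_eq_zero]
    left
    by_contra h0
    rw [Finset.prod_eq_zero_iff] at h0
    push Not at h0
    apply hne
    funext i
    rw [hcs']
    refine hU m c (fun i => ?_) (fun i j hij => ?_) i
    · have := Finset.mem_range.mp (hc i)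
      omega
    · by_contra hh
      push Not at hh
      have hl : c j + 7 - c i < 16 := by omega
      refine h0 ((i, j), ⟨c j + 7 - c i, hl⟩) ?_ ?_
      · rw [hK, hP]
        simp [hij]
      · show ((c i : ℕ) : ZMod p) - ((c j : ℕ) : ZMod p) + (((c j + 7 - c i : ℕ) : ZMod p) - 7) = 0
        rw [Nat.cast_sub (by omega)]
        push_cast
        ring
  · intro h
    exfalso
    apply h
    rw [Fintype.mem_piFinset]
    intro i
    rw [Finset.mem_range, hcs']
    omega

end Pool.Agent.W2helper19.XP
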